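import Pool.Agent.R820.FanPower

/-!
# The countable power of the Arens space `S₂` is not a `k_ℝ`-space
-/

namespace Pool.Agent.Results.MP_d55beb_gt.ArensPower

open Set

/-- The points of the Arens space `S₂`: the point `∞`, the points `a n` and the points `b n m`
(written `a_n` and `a_{n,m}` in the problem). -/
inductive Arens : Type
  | infty : Arens
  | a (n : ℕ) : Arens
  | b (n m : ℕ) : Arens

/-- The topology of `S₂`: a set `U` is open if `a n ∈ U` implies `b n m ∈ U` for all but finitely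
many `m`, and `∞ ∈ U` implies `a n ∈ U` for all but finitely many `n`. So the points `b n m` are
isolated, the basic neighbourhoods of `a n` are the sets `{a n} ∪ {b n m : m ≥ k}`, and those of `∞`
are the sets `{∞} ∪ ⋃ n ≥ k, V n`, where `V n` is a basic neighbourhood of `a n`. -/
instance : TopologicalSpace Arens where
  IsOpen U := (∀ n, Arens.a n ∈ U → ∃ k, ∀ m ≥ k, Arens.b n m ∈ U) ∧
    (Arens.infty ∈ U → ∃ k, ∀ n ≥ k, Arens.a n ∈ U)
  isOpen_univ := ⟨fun _ _ => ⟨0, fun _ _ => trivial⟩, fun _ => ⟨0, fun _ _ => trivial⟩⟩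
  isOpen_inter := by
    rintro U V ⟨hU1, hU2⟩ ⟨hV1, hV2⟩
    constructor
    · rintro n ⟨h1, h2⟩
      obtain ⟨k, hk⟩ := hU1 n h1
      obtain ⟨k', hk'⟩ := hV1 n h2
      exact ⟨max k k', fun m hm => ⟨hk m ((le_max_left _ _).trans hm),
        hk' m ((le_max_right _ _).trans hm)⟩⟩
    · rintro ⟨h1, h2⟩
      obtain ⟨k, hk⟩ := hU2 h1
      obtain ⟨k', hk'⟩ := hV2 h2
      exact ⟨max k k', fun m hm => ⟨hk m ((le_max_left _ _).trans hm),
        hk' m ((le_max_right _ _).trans hm)⟩⟩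
  isOpen_sUnion := by
    intro S hS
    constructor
    · rintro n ⟨U, hU, hn⟩
      obtain ⟨k, hk⟩ := (hS U hU).1 n hn
      exact ⟨k, fun m hm => ⟨U, hU, hk m hm⟩⟩
    · rintro ⟨U, hU, h⟩
      obtain ⟨k, hk⟩ := (hS U hU).2 h
      exact ⟨k, fun m hm => ⟨U, hU, hk m hm⟩⟩

lemma isOpen_def (U : Set Arens) : IsOpen U ↔
    (∀ n, Arens.a n ∈ U → ∃ k, ∀ m ≥ k, Arens.b n m ∈ U) ∧
    (Arens.infty ∈ U → ∃ k, ∀ n ≥ k, Arens.a n ∈ U) := Iff.rfl

/-- There is a discontinuous function `f : S₂ ^ ω → ℝ` whose restriction to every compact subset is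
continuous. -/
theorem result : ∃ f : (ℕ → Arens) → ℝ, ¬ Continuous f ∧
    ∀ K : Set (ℕ → Arens), IsCompact K → ContinuousOn f K := by
  refine Pool.Agent.R820.FanPower.key Arens.b Arens.infty ?_ ?_ ?_ ?_ ?_
  · intro n k n' k' h
    injection h with h1 h2
    exact ⟨h1, h2⟩
  · intro n k h
    exact Arens.noConfusion h
  · intro n k
    rw [isOpen_def]
    exact ⟨fun m hm => Arens.noConfusion (mem_singleton_iff.1 hm),
      fun h => Arens.noConfusion (mem_singleton_iff.1 h)⟩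
  · intro k
    rw [isOpen_def]
    refine ⟨fun n _ => ⟨k n + 1, fun m hm n' h => ?_⟩, fun _ => ⟨0, fun n _ n' h =>
      Arens.noConfusion h⟩⟩
    injection h with h1 h2
    subst h1
    omega
  · intro U hU hinf
    rw [isOpen_def] at hU
    obtain ⟨N, hN⟩ := hU.2 hinf
    refine ⟨N, fun n hn => ?_⟩
    obtain ⟨k, hk⟩ := hU.1 n (hN n hn)
    exact ⟨k + 1, by omega, hk _ (by omega)⟩

end Pool.Agent.Results.MP_d55beb_gt.ArensPower
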