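import Pool.Agent.R820.FanPower

/-!
# The countable power of the sequential fan `S_ω` is not a `k_ℝ`-space
-/

namespace Pool.Agent.Results.MP_d55beb_gt.SequentialFanPower

open Set

/-- The points of the sequential fan `S_ω`: the point `∞` and the points `(n, m) ∈ ω × ω`. -/
inductive Fan : Type
  | infty : Fan
  | pt (n m : ℕ) : Fan

/-- The topology of `S_ω`: a set `U` is open if `∞ ∈ U` implies that there is `f : ω → ω` such that
`(n, m) ∈ U` whenever `m ≥ f n`. So the points of `ω × ω` are isolated and the basic neighbourhoods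
of `∞` are the sets `{∞} ∪ {(n, m) : m ≥ f n}`. -/
instance : TopologicalSpace Fan where
  IsOpen U := Fan.infty ∈ U → ∃ f : ℕ → ℕ, ∀ n m, f n ≤ m → Fan.pt n m ∈ U
  isOpen_univ := fun _ => ⟨fun _ => 0, fun _ _ _ => trivial⟩
  isOpen_inter := by
    rintro U V hU hV ⟨h1, h2⟩
    obtain ⟨f, hf⟩ := hU h1
    obtain ⟨g, hg⟩ := hV h2
    exact ⟨fun n => max (f n) (g n), fun n m hm => ⟨hf n m ((le_max_left _ _).trans hm),
      hg n m ((le_max_right _ _).trans hm)⟩⟩
  isOpen_sUnion := by
    rintro S hS ⟨U, hU, h⟩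
    obtain ⟨f, hf⟩ := hS U hU h
    exact ⟨f, fun n m hm => ⟨U, hU, hf n m hm⟩⟩

lemma isOpen_def (U : Set Fan) : IsOpen U ↔
    (Fan.infty ∈ U → ∃ f : ℕ → ℕ, ∀ n m, f n ≤ m → Fan.pt n m ∈ U) := Iff.rfl

/-- There is a discontinuous function `f : S_ω ^ ω → ℝ` whose restriction to every compact subset
is continuous. -/
theorem result : ∃ f : (ℕ → Fan) → ℝ, ¬ Continuous f ∧
    ∀ K : Set (ℕ → Fan), IsCompact K → ContinuousOn f K := by
  refine Pool.Agent.R820.FanPower.key Fan.pt Fan.infty ?_ ?_ ?_ ?_ ?_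
  · intro n k n' k' h
    injection h with h1 h2
    exact ⟨h1, h2⟩
  · intro n k h
    exact Fan.noConfusion h
  · intro n k
    rw [isOpen_def]
    exact fun h => Fan.noConfusion (mem_singleton_iff.1 h)
  · intro k
    rw [isOpen_def]
    refine fun _ => ⟨fun n => k n + 1, fun n m hm n' h => ?_⟩
    have hm' : k n + 1 ≤ m := hm
    injection h with h1 h2
    subst h1
    omega
  · intro U hU hinf
    rw [isOpen_def] at hU
    obtain ⟨f, hf⟩ := hU hinf
    exact ⟨0, fun n _ => ⟨f n + 1, by omega, hf _ _ (by omega)⟩⟩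

end Pool.Agent.Results.MP_d55beb_gt.SequentialFanPower
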